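import Mathlib

/-!
# MP_43a2f8_nt: exponents of a fixed point of `∑_{d ∣ n, d < n} d τ(d)`
-/

namespace Pool.Agent.Results.MP_43a2f8_nt.ExponentParity

open Finset ArithmeticFunction

/-- `a(n) = ∑_{d ∣ n, d < n} d τ(d)`. -/
def a (n : ℕ) : ℕ := ∑ d ∈ n.properDivisors, d * d.divisors.card

/-- the arithmetic function `d τ(d)`. -/
noncomputable def g : ArithmeticFunction ℕ := ArithmeticFunction.id.pmul (ArithmeticFunction.sigma 0)

/-- its sum over the divisors. -/
noncomputable def F : ArithmeticFunction ℕ := g * ArithmeticFunction.zeta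

lemma g_apply (n : ℕ) : g n = n * n.divisors.card := by
  simp [g, ArithmeticFunction.sigma_zero_apply]

lemma F_mult : F.IsMultiplicative :=
  (ArithmeticFunction.isMultiplicative_id.pmul ArithmeticFunction.isMultiplicative_sigma).mul
    ArithmeticFunction.isMultiplicative_zeta

lemma F_apply (n : ℕ) : F n = ∑ d ∈ n.divisors, d * d.divisors.card := by
  have h : F n = ∑ d ∈ n.divisors, g d := by
    have := ArithmeticFunction.coe_mul_zeta_apply (f := g) (x := n)
    simpa [F] using this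
  rw [h]
  exact sum_congr rfl (fun d _ => g_apply d)

lemma F_pow {p : ℕ} (hp : p.Prime) (k : ℕ) : F (p ^ k) = ∑ x ∈ range (k + 1), p ^ x * (x + 1) := by
  rw [F_apply, Nat.sum_divisors_prime_pow hp]
  apply sum_congr rfl
  intro x _
  rw [Nat.divisors_prime_pow hp, card_map, card_range]

lemma F_two (k : ℕ) : F (2 ^ k) % 2 = 1 := by
  rw [F_pow Nat.prime_two]
  induction k with
  | zero => simp
  | succ k ih =>
    rw [sum_range_succ, pow_succ]
    have : 2 ^ k * 2 * (k + 1 + 1) = 2 * (2 ^ k * (k + 2)) := by ring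
    omega

lemma F_odd {p : ℕ} (hp : p.Prime) (h2 : p ≠ 2) (k : ℕ) : F (p ^ k) % 2 = 0 ↔ 2 ≤ k % 4 := by
  rw [F_pow hp]
  have hodd : p % 2 = 1 := hp.eq_two_or_odd.resolve_left h2
  induction k with
  | zero => simp
  | succ k ih =>
    rw [sum_range_succ]
    have h3 : p ^ (k + 1) * (k + 1 + 1) % 2 = k % 2 := by
      rw [Nat.mul_mod, Nat.pow_mod, hodd]
      simp
      omega
    omega

lemma even_F {n : ℕ} (hn : n ≠ 0) :
    2 ∣ F n ↔ ∃ p, p.Prime ∧ p ≠ 2 ∧ 2 ≤ n.factorization p % 4 := by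
  rw [F_mult.multiplicative_factorization F hn, Finsupp.prod,
    Nat.prime_two.prime.dvd_finsetProd_iff]
  constructor
  · rintro ⟨p, hp, h⟩
    have hpp : p.Prime := Nat.prime_of_mem_primeFactors (by simpa using hp)
    by_cases h2 : p = 2
    · subst h2
      have := F_two (n.factorization 2)
      omega
    · exact ⟨p, hpp, h2, (F_odd hpp h2 _).1 (by omega)⟩
  · rintro ⟨p, hpp, h2, h⟩
    refine ⟨p, ?_, ?_⟩
    · rw [Finsupp.mem_support_iff]
      intro h0
      rw [h0] at h
      omega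
    · have := (F_odd hpp h2 _).2 h
      omega

lemma even_tau {n : ℕ} (hn : n ≠ 0) :
    2 ∣ n.divisors.card ↔ ∃ p, p.Prime ∧ n.factorization p % 2 = 1 := by
  rw [Nat.card_divisors hn, Nat.prime_two.prime.dvd_finsetProd_iff]
  constructor
  · rintro ⟨p, hp, h⟩
    exact ⟨p, Nat.prime_of_mem_primeFactors hp, by omega⟩
  · rintro ⟨p, hpp, h⟩
    refine ⟨p, ?_, by omega⟩
    rw [← Nat.support_factorization, Finsupp.mem_support_iff]
    omega

lemma key {n : ℕ} (hn : n ≠ 0) (h : a n = n) : F n = n * (n.divisors.card + 1) := by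
  rw [F_apply, ← Nat.cons_self_properDivisors hn, sum_cons, Nat.cons_self_properDivisors hn]
  unfold a at h
  rw [h]
  ring

lemma F_prime {p : ℕ} (hp : p.Prime) : F p = 2 * p + 1 := by
  have := F_pow hp 1
  rw [pow_one] at this
  rw [this, sum_range_succ, sum_range_one]
  ring

lemma tau_prime {p : ℕ} (hp : p.Prime) : p.divisors.card = 2 := by
  have := Nat.divisors_prime_pow hp 1
  rw [pow_one] at this
  rw [this, card_map, card_range]

lemma prime_power {p : ℕ} (hp : p.Prime) (k : ℕ) : a (p ^ k) ≠ p ^ k := by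
  intro h
  have h1 := key (pow_ne_zero k hp.ne_zero) h
  rw [F_pow hp, Nat.divisors_prime_pow hp, card_map, card_range, sum_range_succ'] at h1
  rcases Nat.eq_zero_or_pos k with h0 | h0
  · subst h0
    simp at h1
  · have h2 : p ∣ ∑ x ∈ range k, p ^ (x + 1) * (x + 1 + 1) :=
      dvd_sum (fun x _ => Dvd.dvd.mul_right (dvd_pow_self p (by omega)) _)
    have h3 : p ∣ p ^ k * (k + 1 + 1) := Dvd.dvd.mul_right (dvd_pow_self p (by omega)) _
    rw [← h1] at h3
    have h4 := (Nat.dvd_add_right h2).1 h3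
    simp at h4
    exact hp.one_lt.ne' h4

lemma two_primes {p q : ℕ} (hp : p.Prime) (hq : q.Prime) (hpq : p < q) (h : a (p * q) = p * q) :
    p = 3 ∧ q = 7 := by
  have hc : p.Coprime q := (Nat.coprime_primes hp hq).2 hpq.ne
  have h1 := key (Nat.mul_ne_zero hp.ne_zero hq.ne_zero) h
  rw [F_mult.map_mul_of_coprime hc, F_prime hp, F_prime hq, hc.card_divisors_mul, tau_prime hp,
    tau_prime hq] at h1
  have h2 : 2 * p + 2 * q + 1 = p * q := by nlinarith
  have h3 : p < 5 := by
    by_contra h5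
    push Not at h5
    nlinarith
  have := hp.two_le
  interval_cases p
  · omega
  · omega
  · omega

lemma three_primes {p q r : ℕ} (hp : p.Prime) (hq : q.Prime) (hr : r.Prime) (hpq : p < q)
    (hqr : q < r) : a (p * q * r) ≠ p * q * r := by
  intro h
  have hc : p.Coprime q := (Nat.coprime_primes hp hq).2 hpq.ne
  have hc1 : p.Coprime r := (Nat.coprime_primes hp hr).2 (by omega)
  have hc2 : q.Coprime r := (Nat.coprime_primes hq hr).2 hqr.ne
  have hc3 : (p * q).Coprime r := Nat.Coprime.mul_left hc1 hc2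
  have h1 := key (Nat.mul_ne_zero (Nat.mul_ne_zero hp.ne_zero hq.ne_zero) hr.ne_zero) h
  rw [F_mult.map_mul_of_coprime hc3, F_mult.map_mul_of_coprime hc, F_prime hp, F_prime hq,
    F_prime hr, hc3.card_divisors_mul, hc.card_divisors_mul, tau_prime hp, tau_prime hq,
    tau_prime hr] at h1
  norm_num at h1
  have hp2 := hp.two_le
  have hqr0 : 0 < q * r := Nat.mul_pos hq.pos hr.pos
  have e : (2 * p + 1) * ((2 * q + 1) * (2 * r + 1)) = 9 * p * (q * r) := by
    rw [← mul_assoc, h1]
    ring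
  have h4 : 4 * (q * r) ≤ (2 * q + 1) * (2 * r + 1) := by nlinarith
  -- `p ≥ 5`
  have hp5 : 5 ≤ p := by
    by_contra h5
    have hp4 : p ≠ 4 := by
      rintro rfl
      revert hp
      decide
    have h6 : 9 * p < 4 * (2 * p + 1) := by omega
    have h7 : 9 * p * (q * r) < 4 * (2 * p + 1) * (q * r) := Nat.mul_lt_mul_of_pos_right h6 hqr0
    have h8 : (2 * p + 1) * (4 * (q * r)) ≤ (2 * p + 1) * ((2 * q + 1) * (2 * r + 1)) :=
      Nat.mul_le_mul_left _ h4
    nlinarith
  -- `p ≤ 12`
  have hp12 : p ≤ 12 := by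
    by_contra h5
    have a1 : 13 * (2 * p + 1) ≤ 27 * p := by omega
    have a2 : 13 * (2 * q + 1) ≤ 27 * q := by omega
    have a3 : 13 * (2 * r + 1) ≤ 27 * r := by omega
    have a4 := Nat.mul_le_mul a1 (Nat.mul_le_mul a2 a3)
    have a5 : 13 * (2 * p + 1) * (13 * (2 * q + 1) * (13 * (2 * r + 1))) =
        2197 * (9 * p * (q * r)) := by rw [← e]; ring
    rw [a5] at a4
    have a6 : 27 * p * (27 * q * (27 * r)) = 19683 * (p * (q * r)) := by ring
    have a7 : 0 < p * (q * r) := Nat.mul_pos (by omega) hqr0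
    rw [a6] at a4
    nlinarith
  -- `q ≤ 44`
  have hq44 : q ≤ 44 := by
    by_contra h5
    have a2 : 45 * (2 * q + 1) ≤ 91 * q := by omega
    have a3 : 45 * (2 * r + 1) ≤ 91 * r := by omega
    have a4 := Nat.mul_le_mul a2 a3
    have a5 : 45 * (2 * p + 1) ≤ 99 * p := by omega
    have a6 : 45 * (2 * p + 1) * (q * r) ≤ 99 * p * (q * r) := Nat.mul_le_mul_right _ a5
    have a7 : (2 * p + 1) * (45 * (2 * q + 1) * (45 * (2 * r + 1))) ≤
        (2 * p + 1) * (91 * q * (91 * r)) := Nat.mul_le_mul_left _ a4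
    have a8 : (2 * p + 1) * (45 * (2 * q + 1) * (45 * (2 * r + 1))) =
        2025 * (9 * p * (q * r)) := by rw [← e]; ring
    rw [a8] at a7
    have a9 : 0 < (2 * p + 1) * (q * r) := Nat.mul_pos (by omega) hqr0
    have a10 : (2 * p + 1) * (91 * q * (91 * r)) = 8281 * ((2 * p + 1) * (q * r)) := by ring
    have a11 : 45 * (2 * p + 1) * (q * r) = 45 * ((2 * p + 1) * (q * r)) := by ring
    have a12 : 2025 * (9 * p * (q * r)) = 18225 * (p * (q * r)) := by ring
    have a13 : 99 * p * (q * r) = 99 * (p * (q * r)) := by ring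
    rw [a10, a12] at a7
    rw [a11, a13] at a6
    omega
  clear h h4 hqr0 hc hc1 hc2 hc3 e
  have nd : ∀ s : ℕ, s.Prime → s < r → r % s ≠ 0 := by
    intro s hs hsr h0
    have := (Nat.prime_dvd_prime_iff_eq hs hr).1 (Nat.dvd_of_mod_eq_zero h0)
    omega
  have n2 := nd 2 (by decide) (by omega)
  have n3 := nd 3 (by decide) (by omega)
  have n5 := nd 5 (by decide) (by omega)
  have n11 : r = 11 ∨ r % 11 ≠ 0 := by
    rcases Nat.lt_or_ge 11 r with h11 | h11
    · exact Or.inr (nd 11 (by decide) h11)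
    · left
      have hq6 : q ≠ 6 := by
        rintro rfl
        revert hq
        decide
      have h8 : 8 ≤ r := by omega
      interval_cases r <;> first | rfl | (exfalso; revert hr; decide)
  clear nd
  have hpc : p = 5 ∨ p = 7 ∨ p = 11 := by
    interval_cases p <;> first | omega | (exfalso; revert hp; decide)
  rcases hpc with rfl | rfl | rfl <;> interval_cases q <;>
    first | omega | (exfalso; revert hq; decide)

/-- exponents of a fixed point, and the fixed points with few prime factors. -/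
theorem result :
    (∀ n : ℕ, 0 < n → a n = n →
      ((∃ p, p.Prime ∧ p ≠ 2 ∧ 2 ≤ n.factorization p % 4) ↔
        (n % 2 = 0 ∨ ∀ p, p.Prime → n.factorization p % 2 = 0))) ∧
    -- an even fixed point is divisible by the square of an odd prime
    (∀ n : ℕ, 0 < n → n % 2 = 0 → a n = n → ∃ p, p.Prime ∧ p ≠ 2 ∧ p ^ 2 ∣ n) ∧
    -- prime powers
    (∀ p k : ℕ, p.Prime → a (p ^ k) ≠ p ^ k) ∧
    -- products of two primes
    (∀ p q : ℕ, p.Prime → q.Prime → p < q → a (p * q) = p * q → p = 3 ∧ q = 7) ∧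
    -- products of three primes
    (∀ p q r : ℕ, p.Prime → q.Prime → r.Prime → p < q → q < r → a (p * q * r) ≠ p * q * r) := by
  have main : ∀ n : ℕ, 0 < n → a n = n →
      ((∃ p, p.Prime ∧ p ≠ 2 ∧ 2 ≤ n.factorization p % 4) ↔
        (n % 2 = 0 ∨ ∀ p, p.Prime → n.factorization p % 2 = 0)) := by
    intro n hn h
    rw [← even_F hn.ne', key hn.ne' h, Nat.prime_two.dvd_mul]
    have h1 := even_tau hn.ne'
    have h2 : 2 ∣ n.divisors.card + 1 ↔ ∀ p, p.Prime → n.factorization p % 2 = 0 := by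
      constructor
      · intro h3 p hp
        by_contra h4
        have := h1.2 ⟨p, hp, by omega⟩
        omega
      · intro h3
        have : ¬ 2 ∣ n.divisors.card := by
          rw [h1]
          rintro ⟨p, hp, h4⟩
          have := h3 p hp
          omega
        omega
    rw [h2, Nat.dvd_iff_mod_eq_zero]
  refine ⟨main, fun n hn he h => ?_, fun p k hp => prime_power hp k,
    fun p q hp hq hpq h => two_primes hp hq hpq h,
    fun p q r hp hq hr hpq hqr => three_primes hp hq hr hpq hqr⟩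
  obtain ⟨p, hp, hp2, h3⟩ := (main n hn h).2 (Or.inl he)
  refine ⟨p, hp, hp2, ?_⟩
  rw [hp.pow_dvd_iff_le_factorization hn.ne']
  omega

end Pool.Agent.Results.MP_43a2f8_nt.ExponentParity
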